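import Pool.Agent.U483.KW.Main

/-!
# Beilinson's conjecture for `K_4` of genus one curves is a statement about a dimension

`𝒞` is the category of the Chow motives over `ℚ` with rational coefficients (contravariant convention), `S` is the set of the
smooth projective curves `C` of genus one over `ℚ` and `h C` the Chow motive. `R.mot` is `H^2_M(-, ℚ(3))`, `R.hom` is the Betti
homology `H_1(-, ℚ)^+` and `R.pair γ α = (2πi)^{-2} ∫_γ reg(α)`. `form C` is the newform `f` of weight 2 of the
Jacobian `E` of `C` (modularity) and `l f = L'(f, -1) = L'(E, -1)`, a nonzero real number.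
The structure `GenusOne` lists the facts which are used:

* if `C` and `C'` have the same newform then the Jacobians are isogenous (Faltings), and the Chow motives `h C` and `h C'`
  with rational coefficients are isomorphic (`h^1(C) ≅ h^1(E)`, also if `C` has no rational point);
* for each newform there is a curve `C` (a strong Weil curve) and an element `α` whose regulator is a nonzero
  rational multiple of `L'(f, -1)` (Beilinson's theorem on modular curves, for `H^2_M(X, ℚ(3))`).

The result: for every `C`, and every `C'` with the same newform, the statement of the problem for `C` is true if and only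
if `H^2_M(C', ℚ(3))` has dimension one over `ℚ`. In particular the statement only depends on the isogeny class of
the Jacobian, and the conjecture is true for all curves of genus one if and only if `dim K_4(E)^{(3)} = 1` for one elliptic
curve `E` in each isogeny class.
-/

set_option autoImplicit false

open CategoryTheory Module Pool.Agent.U483.KW

namespace Pool.Agent.Results.MP_4132b3_nt.DimensionOne

universe y z

/-- The Chow motives `h C` of the curves `C` of genus one over `ℚ`, the newforms `form C` of the Jacobians, the numbers
`l f = L'(f, -1)`, and the known facts: Faltings and the invariance of the Chow motive, non-vanishing, Beilinson's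
theorem for modular curves. -/
structure GenusOne {𝒞 : Type y} [Category.{z} 𝒞] (R : Regulators.{y, z} 𝒞) (S N : Type) where
  /-- the Chow motive of the curve -/
  h : S → 𝒞
  /-- the newform -/
  form : S → N
  /-- the number `L'(f, -1)` -/
  l : N → ℝ
  l_ne_zero : ∀ C : S, l (form C) ≠ 0
  isogeny : ∀ C C' : S, form C = form C' → Nonempty (h C ≅ h C')
  modular : ∀ C : S, ∃ E : S, form E = form C ∧ R.Weak (h E) (l (form C))

/-- The statement of the problem for the curve `C`. -/
def GenusOne.Q1 {𝒞 : Type y} [Category.{z} 𝒞] {R : Regulators.{y, z} 𝒞} {S N : Type}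
    (M : GenusOne R S N) (C : S) : Prop := R.Beilinson (M.h C) (M.l (M.form C))

theorem result (𝒞 : Type y) [Category.{z} 𝒞] (R : Regulators.{y, z} 𝒞) (S N : Type)
    (M : GenusOne R S N) :
    -- the statement for `C` in terms of a dimension, for every `C'` with the same newform
    (∀ C C' : S, M.form C' = M.form C → (M.Q1 C ↔ finrank ℚ (R.mot.obj (M.h C')) = 1)) ∧
    -- the statement for all curves
    ∀ T : Set S, (∀ C : S, ∃ C' ∈ T, M.form C' = M.form C) →
      ((∀ C : S, M.Q1 C) ↔ ∀ C' ∈ T, finrank ℚ (R.mot.obj (M.h C')) = 1) := by
  have key : ∀ C C' : S, M.form C' = M.form C →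
      (M.Q1 C ↔ finrank ℚ (R.mot.obj (M.h C')) = 1) := by
    intro C C' h
    obtain ⟨E, hE, hW⟩ := M.modular C
    obtain ⟨e⟩ := M.isogeny E C hE
    obtain ⟨e'⟩ := M.isogeny C' C h
    rw [finrank_mot_iso R e']
    exact beilinson_iff R (M.h C) (M.l_ne_zero C) (weak_iso R e hW)
  refine ⟨key, fun T hT => ⟨fun h C' _ => (key C' C' rfl).1 (h C'), fun h C => ?_⟩⟩
  obtain ⟨C', hC', h1⟩ := hT C
  exact (key C C' h1).2 (h C' hC')

end Pool.Agent.Results.MP_4132b3_nt.DimensionOne
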